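import Pool.Agent.U644.EF.Core

/-!
# The effective Shafarevich conjecture for curves and the decidability of an existence problem

Number fields, finite sets of places, genera, curves (given by equations) and tuples of polynomials are numbered. `CurveTheory`
collects the known facts used.

* The finite set `V` of places and the fact that curves with the same Frobenius polynomials at `V` have isogenous Jacobians are Faltings'
  (1983); `V` can be computed from `(K,T,g)` by effective versions of the theorems of Hermite-Minkowski and Chebotarev.
* If the Jacobians of `X` and `Y` are isogenous, then there is an isogeny of degree bounded effectively in terms of `X`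
  (Masser-Wüstholz; explicit bounds by Gaudron-Rémond); the stable Faltings height changes by at most half of the logarithm
  of the degree. So the height of `Y` is bounded effectively in terms of `X`.
* Effective Northcott property: a bound for the Faltings height gives a bound for the theta height (Bost, David; explicit
  version by Pazuki), so one can list representatives of the `K`-isomorphism classes of the curves of genus `g` with good
  reduction outside `T` and stable Faltings height at most `n`.
* Covers: fix `N ≥ 2`, a number field `K₀` and a finite set `S₀` of rational primes. Let `L/K` be a sufficiently large finite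
  extension unramified outside the set `T'` of the places over `T`, `N` and `S₀` and the ramified places of `K K₀ / K`
  (computable from `K`, `T`, `g`). Over `L` the étale cover `X' → X` with the group `H_1(X, ℤ/N) = (ℤ/N)^{2g}` exists as a
  Galois cover with constant group (the obstruction is in `H²(O_{L,T'}, ℤ/N)^{2g}` and disappears in a cyclotomic extension of
  the Hilbert class field), it has good reduction outside `T'`, and the Jacobian of `X` is an isogeny factor of the one of
  `X'`, with an effectively bounded degree. As Faltings heights are bounded below in terms of the dimension (Bost),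
  `h_F(X) ≤ h_F(X') + C`, `C` effective.
-/

set_option autoImplicit false

namespace Pool.Agent.Results.MP_f89135_nt.ExistenceProblem

/-- Curves of genus at least two over number fields, with the known facts that are used. A natural number `d` is a code of
the data `(K,T,g)`, `g ≥ 2`, and `X` a code of a curve over a number field. `height X` is the stable Faltings height of the
Jacobian. -/
structure CurveTheory where
  /-- `X` is (the code of) a curve of genus `g` over `K` with good reduction outside `T`, where `d` is the code of `(K,T,g)` -/
  good : ℕ → ℕ → Prop
  good_dec : ComputablePred fun p : ℕ × ℕ => good p.1 p.2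
  /-- the stable Faltings height of the Jacobian -/
  height : ℕ → ℝ
  /-- the tuple of the characteristic polynomials of the Frobenius elements at the places in `V(K,T,g)`, for the curve `X` -/
  frob : ℕ → ℕ → ℕ
  frob_comp : Computable₂ frob
  /-- Weil: the Frobenius polynomials of the curves in question are in an explicit finite set -/
  weil : ℕ → ℕ
  weil_comp : Computable weil
  frob_lt : ∀ d X, good d X → frob d X < weil d
  /-- Faltings, Masser and Wüstholz: curves with the same Frobenius polynomials at `V` have isogenous Jacobians, and the
  height of one is bounded in terms of the other -/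
  isog : ℕ → ℕ → ℕ
  isog_comp : Computable₂ isog
  isog_spec : ∀ d X Y, good d X → good d Y → frob d X = frob d Y → height Y ≤ isog d X
  /-- `K ⊇ K₀`, the residue characteristics of `T` contain `S₀`, and `(ℤ/N)^{2h}` acts freely on `X` over `K` with a quotient of
  genus `h ≥ 2` (`N ≥ 2`, `K₀` and `S₀` are fixed) -/
  Special : ℕ → ℕ → Prop
  special_dec : ComputablePred fun p : ℕ × ℕ => Special p.1 p.2
  /-- effective Northcott property: the curves of bounded height can be listed up to isomorphism over `K` (`Y` is the listed
  curve isomorphic to `X`) -/
  list : ℕ → ℕ → ℕ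
  list_comp : Computable₂ list
  list_spec : ∀ (d X n : ℕ), good d X → height X ≤ n →
    ∃ Y, Y < list d n ∧ good d Y ∧ frob d Y = frob d X ∧ (Special d X → Special d Y)
  /-- the data `(L,T',g')` of the étale covers with group `H_1(X, ℤ/N)` -/
  tau : ℕ → ℕ
  tau_comp : Computable tau
  /-- the constant in the comparison of the heights -/
  cst : ℕ → ℕ
  cst_comp : Computable cst
  cover : ∀ d X, good d X → ∃ X', good (tau d) X' ∧ Special (tau d) X' ∧ height X ≤ height X' + cst d

/-- Q1 (for genus `≥ 2`): a bound for the heights can be computed from `(K,T,g)`. -/
def EffectiveShafarevich (T : CurveTheory) : Prop :=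
  ∃ c : ℕ → ℕ, Computable c ∧ ∀ d X, T.good d X → T.height X ≤ c d

/-- Q1 for the special curves. -/
def EffectiveShafarevichSpecial (T : CurveTheory) : Prop :=
  ∃ c : ℕ → ℕ, Computable c ∧ ∀ d X, T.good d X → T.Special d X → T.height X ≤ c d

/-- There is a curve of genus `g` over `K` with good reduction outside `T` and the Frobenius polynomials `s` at `V`. -/
def Occurs (T : CurveTheory) (p : ℕ × ℕ) : Prop := ∃ X, T.good p.1 X ∧ T.frob p.1 X = p.2

/-- There is a special curve of genus `g` over `K` with good reduction outside `T` and the Frobenius polynomials `s` at `V`. -/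
def OccursSpecial (T : CurveTheory) (p : ℕ × ℕ) : Prop := ∃ X, (T.good p.1 X ∧ T.Special p.1 X) ∧ T.frob p.1 X = p.2

lemma and_dec {p q : ℕ × ℕ → Prop} (hp : ComputablePred p) (hq : ComputablePred q) :
    ComputablePred fun a => p a ∧ q a := by
  obtain ⟨f, hf, rfl⟩ := ComputablePred.computable_iff.1 hp
  obtain ⟨g, hg, rfl⟩ := ComputablePred.computable_iff.1 hq
  refine ComputablePred.computable_iff.2 ⟨fun a => f a && g a, Primrec.and.to_comp.comp hf hg, ?_⟩
  funext a
  exact propext (Bool.and_eq_true _ _ ▸ Iff.rfl)

def thy (T : CurveTheory) : Pool.Agent.U644.EF.Thy where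
  good := T.good
  good_dec := T.good_dec
  height := T.height
  sig := T.frob
  sig_comp := T.frob_comp
  sigBound := T.weil
  sigBound_comp := T.weil_comp
  sig_lt := T.frob_lt
  bound := T.isog
  bound_comp := T.isog_comp
  bound_spec := T.isog_spec
  list := T.list
  list_comp := T.list_comp
  list_spec := fun d X n h1 h2 => by
    obtain ⟨Y, h3, h4, h5, -⟩ := T.list_spec d X n h1 h2
    exact ⟨Y, h3, h4, h5⟩

def thySp (T : CurveTheory) : Pool.Agent.U644.EF.Thy where
  good := fun d X => T.good d X ∧ T.Special d X
  good_dec := and_dec T.good_dec T.special_dec
  height := T.height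
  sig := T.frob
  sig_comp := T.frob_comp
  sigBound := T.weil
  sigBound_comp := T.weil_comp
  sig_lt := fun d X h => T.frob_lt d X h.1
  bound := T.isog
  bound_comp := T.isog_comp
  bound_spec := fun d X Y h1 h2 h3 => T.isog_spec d X Y h1.1 h2.1 h3
  list := T.list
  list_comp := T.list_comp
  list_spec := fun d X n h1 h2 => by
    obtain ⟨Y, h3, h4, h5, h6⟩ := T.list_spec d X n h1.1 h2
    exact ⟨Y, h3, ⟨h4, h6 h1.2⟩, h5⟩

/-- The following are equivalent. (1) Q1 (genus `≥ 2`): a bound for the heights can be computed from `(K,T,g)`. (2) The same
for the special curves. (3) It is decidable whether there is a curve of genus `g` over `K` with good reduction outside `T` and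
given Frobenius polynomials at `V(K,T,g)`. (4) The set of the data and polynomials for which there is none is recursively
enumerable. (5) The number of the tuples of polynomials which occur can be computed from `(K,T,g)`. (6)-(8) The same for the
special curves. -/
theorem result (T : CurveTheory) : List.TFAE [
    EffectiveShafarevich T,
    EffectiveShafarevichSpecial T,
    ComputablePred (Occurs T),
    REPred fun p => ¬ Occurs T p,
    Computable fun d => Nat.card {s // Occurs T (d, s)},
    ComputablePred (OccursSpecial T),
    REPred fun p => ¬ OccursSpecial T p,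
    Computable fun d => Nat.card {s // OccursSpecial T (d, s)}] := by
  have h1 := Pool.Agent.U644.EF.main (thy T)
  have h2 := Pool.Agent.U644.EF.main (thySp T)
  have e1 : EffectiveShafarevich T ↔ ComputablePred (Occurs T) := h1.out 0 1
  have e2 : ComputablePred (Occurs T) ↔ REPred fun p => ¬ Occurs T p := h1.out 1 2
  have e3 : ComputablePred (Occurs T) ↔ Computable fun d => Nat.card {s // Occurs T (d, s)} := h1.out 1 3
  have e4 : EffectiveShafarevichSpecial T ↔ ComputablePred (OccursSpecial T) := by
    have : (∃ c : ℕ → ℕ, Computable c ∧ ∀ d X, T.good d X ∧ T.Special d X → T.height X ≤ c d) ↔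
      ComputablePred (OccursSpecial T) := h2.out 0 1
    rw [← this]
    exact ⟨fun ⟨c, hc, h⟩ => ⟨c, hc, fun d X hX => h d X hX.1 hX.2⟩,
      fun ⟨c, hc, h⟩ => ⟨c, hc, fun d X h1 h2 => h d X ⟨h1, h2⟩⟩⟩
  have e5 : ComputablePred (OccursSpecial T) ↔ REPred fun p => ¬ OccursSpecial T p := h2.out 1 2
  have e6 : ComputablePred (OccursSpecial T) ↔ Computable fun d => Nat.card {s // OccursSpecial T (d, s)} :=
    h2.out 1 3
  tfae_have 1 → 2 := fun ⟨c, hc, h⟩ => ⟨c, hc, fun d X hX _ => h d X hX⟩
  tfae_have 2 → 1 := by
    rintro ⟨c, hc, h⟩
    refine ⟨fun d => c (T.tau d) + T.cst d, Primrec.nat_add.to_comp.comp (hc.comp T.tau_comp) T.cst_comp, ?_⟩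
    intro d X hX
    obtain ⟨X', h3, h4, h5⟩ := T.cover d X hX
    have h6 := h _ _ h3 h4
    push_cast
    linarith
  tfae_have 1 ↔ 3 := e1
  tfae_have 3 ↔ 4 := e2
  tfae_have 3 ↔ 5 := e3
  tfae_have 2 ↔ 6 := e4
  tfae_have 6 ↔ 7 := e5
  tfae_have 6 ↔ 8 := e6
  tfae_finish

end Pool.Agent.Results.MP_f89135_nt.ExistenceProblem
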